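import Pool.Agent.H20.CRZ.H1a
import Pool.Agent.H37.CV.All

/-!
# (H1) growth of the L-functions
-/

set_option autoImplicit false

namespace Pool.Agent.H20.CRZ

open Pool.Agent.H28.RC Pool.Agent.H37.CV

/-- (H1) growth of the L-functions. -/
theorem pf_H1 (h1 : Pool.Agent.H65.CRZ.T_H2) (_h2 : Pool.Agent.H65.CRZ.T_G1) :
    Pool.Agent.H65.CRZ.T_H1 :=
  h1_core T_HEc_proved c_GW a_EN a_GB a_ZK h1

end Pool.Agent.H20.CRZ
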